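import Mathlib

set_option autoImplicit false

namespace Pool.Agent.P.MP_fb43a4_co

open Finset MvPolynomial

/-- One-variable interpolation sum. -/
lemma sum_pow_div (s : Finset ℚ) (d : ℕ) (hd : d < s.card) :
    ∑ a ∈ s, a ^ d / ∏ b ∈ s.erase a, (a - b) = if d = s.card - 1 then 1 else 0 := by
  have h := Lagrange.coeff_eq_sum (s := s) (v := fun a : ℚ => a) (fun _ _ _ _ h => h)
    (P := (Polynomial.X : Polynomial ℚ) ^ d) (by
      rw [Polynomial.degree_X_pow]; exact_mod_cast hd)
  simp only [Polynomial.eval_pow, Polynomial.eval_X, Polynomial.coeff_X_pow] at h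
  rw [← h]
  by_cases hh : d = s.card - 1
  · simp [hh]
  · rw [if_neg hh, if_neg (fun h' => hh h'.symm)]

variable {W : Type} [Fintype W] [DecidableEq W]

/-- The grid functional. -/
noncomputable def lam (A : W → Finset ℚ) (f : MvPolynomial W ℚ) : ℚ :=
  ∑ x ∈ Fintype.piFinset A, eval x f / ∏ w, ∏ b ∈ (A w).erase (x w), (x w - b)

lemma lam_monomial (A : W → Finset ℚ) (k : ℕ) (hk : 0 < k) (hA : ∀ w, (A w).card = k)
    (d : W →₀ ℕ) (hd : ∑ w, d w ≤ ∑ _w : W, (k - 1)) (r : ℚ) :
    lam A (monomial d r) = if (∀ w, d w = k - 1) then r else 0 := by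
  have h1 : lam A (monomial d r) =
      r * ∏ w, ∑ a ∈ A w, a ^ d w / ∏ b ∈ (A w).erase a, (a - b) := by
    unfold lam
    rw [Finset.prod_univ_sum, Finset.mul_sum]
    refine Finset.sum_congr rfl fun x _ => ?_
    rw [eval_monomial, Finsupp.prod_fintype _ _ (by simp), Finset.prod_div_distrib, mul_div_assoc]
  rw [h1]
  split_ifs with h
  · rw [Finset.prod_eq_one, mul_one]
    intro w _
    rw [sum_pow_div _ _ (by rw [h w, hA w]; omega), if_pos (by rw [h w, hA w])]
  · have : ∃ w, d w < k - 1 := by
      by_contra hcon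
      push Not at hcon
      apply h
      intro w
      have := (Finset.sum_eq_sum_iff_of_le (s := Finset.univ) (f := fun _ : W => k - 1)
        (g := fun w => d w) (fun i _ => hcon i)).1
        (le_antisymm (Finset.sum_le_sum fun i _ => hcon i) hd) w (Finset.mem_univ w)
      exact this.symm
    obtain ⟨w, hw⟩ := this
    rw [Finset.prod_eq_zero (Finset.mem_univ w), mul_zero]
    rw [sum_pow_div _ _ (by rw [hA w]; omega), if_neg (by rw [hA w]; omega)]

lemma lam_sum {ι : Type} (A : W → Finset ℚ) (s : Finset ι) (g : ι → MvPolynomial W ℚ) :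
    lam A (∑ i ∈ s, g i) = ∑ i ∈ s, lam A (g i) := by
  unfold lam
  rw [Finset.sum_comm]
  refine Finset.sum_congr rfl fun x _ => ?_
  rw [map_sum, Finset.sum_div]

lemma lam_indep (A A' : W → Finset ℚ) (k : ℕ) (hk : 0 < k) (hA : ∀ w, (A w).card = k)
    (hA' : ∀ w, (A' w).card = k) (f : MvPolynomial W ℚ)
    (hf : f.totalDegree ≤ ∑ _w : W, (k - 1)) : lam A f = lam A' f := by
  rw [f.as_sum, lam_sum, lam_sum]
  refine Finset.sum_congr rfl fun d hd => ?_
  have hdeg : ∑ w, d w ≤ ∑ _w : W, (k - 1) := by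
    have := le_totalDegree hd
    rw [Finsupp.sum_fintype _ _ (by simp)] at this
    exact this.trans hf
  rw [lam_monomial A k hk hA d hdeg, lam_monomial A' k hk hA' d hdeg]

/-- Rainbow out-neighbourhoods give choosability. -/
theorem rainbow (k : ℕ) (c : W → Fin k) (ρ : W → Fin k → W)
    (hc : ∀ w b, b ≠ c w → c (ρ w b) = b)
    (hr : ∀ c' : W → Fin k, (∀ w b, b ≠ c w → c' (ρ w b) ≠ c' w) →
      ∀ w b b', b ≠ c w → b' ≠ c w → c' (ρ w b) = c' (ρ w b') → b = b')
    (L : W → Finset ℕ) (hL : ∀ w, k ≤ (L w).card) :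
    ∃ x : W → ℕ, (∀ w, x w ∈ L w) ∧ ∀ w b, b ≠ c w → x (ρ w b) ≠ x w := by
  rcases Nat.eq_zero_or_pos k with rfl | hk
  · exact ⟨fun w => (c w).elim0, fun w => (c w).elim0, fun w => (c w).elim0⟩
  set f : MvPolynomial W ℚ := ∏ w, ∏ b ∈ Finset.univ.erase (c w), (X w - X (ρ w b)) with hf
  have hdeg : f.totalDegree ≤ ∑ _w : W, (k - 1) := by
    refine (totalDegree_finsetProd _ _).trans (Finset.sum_le_sum fun w _ => ?_)
    refine (totalDegree_finsetProd _ _).trans ?_
    have : ∀ b ∈ Finset.univ.erase (c w),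
        (X w - X (ρ w b) : MvPolynomial W ℚ).totalDegree ≤ 1 := by
      intro b _
      refine (totalDegree_sub _ _).trans ?_
      simp [totalDegree_X]
    refine (Finset.sum_le_sum this).trans ?_
    simp
  have hev : ∀ x : W → ℚ, eval x f = ∏ w, ∏ b ∈ Finset.univ.erase (c w), (x w - x (ρ w b)) := by
    intro x
    simp [hf, map_prod]
  let e : Fin k → ℚ := fun b => ((b : ℕ) : ℚ)
  have he : Function.Injective e := fun a b h => by
    apply Fin.ext
    exact Nat.cast_injective (R := ℚ) h
  let C : Finset ℚ := Finset.univ.image e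
  have hC : C.card = k := by
    rw [Finset.card_image_of_injective _ he]; simp
  -- terms on the standard grid
  have hterm : ∀ c' : W → Fin k, (∀ w b, b ≠ c w → c' (ρ w b) ≠ c' w) →
      eval (fun w => e (c' w)) f / ∏ w, ∏ b ∈ C.erase (e (c' w)), (e (c' w) - b) = 1 := by
    intro c' hc'
    rw [hev, div_eq_one_iff_eq]
    · refine Finset.prod_congr rfl fun w _ => ?_
      have hinj : Set.InjOn (fun b => e (c' (ρ w b))) (Finset.univ.erase (c w) : Finset (Fin k)) := by
        intro b hb b' hb' h
        exact hr c' hc' w b b' (Finset.ne_of_mem_erase hb) (Finset.ne_of_mem_erase hb') (he h)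
      have himg : (Finset.univ.erase (c w)).image (fun b => e (c' (ρ w b))) =
          C.erase (e (c' w)) := by
        apply Finset.eq_of_subset_of_card_le
        · intro z hz
          obtain ⟨b, hb, rfl⟩ := Finset.mem_image.1 hz
          refine Finset.mem_erase.2 ⟨fun h => hc' w b (Finset.ne_of_mem_erase hb) (he h), ?_⟩
          exact Finset.mem_image_of_mem _ (Finset.mem_univ _)
        · rw [Finset.card_image_of_injOn hinj,
            Finset.card_erase_of_mem (Finset.mem_image_of_mem _ (Finset.mem_univ _)), hC]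
          simp
      rw [← himg, Finset.prod_image hinj]
    · refine Finset.prod_ne_zero_iff.2 fun w _ => Finset.prod_ne_zero_iff.2 fun b hb => ?_
      exact sub_ne_zero.2 (Finset.ne_of_mem_erase hb).symm
  have hpos : 0 < lam (fun _ : W => C) f := by
    unfold lam
    apply Finset.sum_pos'
    · intro x hx
      have : ∀ w, ∃ b, e b = x w := fun w => by
        have := Fintype.mem_piFinset.1 hx w
        simpa [C] using this
      choose c' hc' using this
      have hx' : x = fun w => e (c' w) := funext fun w => (hc' w).symm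
      subst hx'
      by_cases hp : ∀ w b, b ≠ c w → c' (ρ w b) ≠ c' w
      · rw [hterm c' hp]; exact zero_le_one
      · push Not at hp
        obtain ⟨w, b, hb, hwb⟩ := hp
        rw [hev, Finset.prod_eq_zero (Finset.mem_univ w), zero_div]
        exact Finset.prod_eq_zero (Finset.mem_erase.2 ⟨hb, Finset.mem_univ b⟩) (by rw [hwb, sub_self])
    · refine ⟨fun w => e (c w), Fintype.mem_piFinset.2 fun w =>
        Finset.mem_image_of_mem _ (Finset.mem_univ _), ?_⟩
      rw [hterm c (fun w b hb => by rw [hc w b hb]; exact hb)]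
      exact zero_lt_one
  choose L' hL' hL'c using fun w => Finset.exists_subset_card_eq (hL w)
  let A : W → Finset ℚ := fun w => (L' w).image (fun n : ℕ => (n : ℚ))
  have hA : ∀ w, (A w).card = k := fun w => by
    rw [Finset.card_image_of_injective _ Nat.cast_injective, hL'c]
  have hne : lam A f ≠ 0 := by
    rw [lam_indep A (fun _ => C) k hk hA (fun _ => hC) f hdeg]
    exact hpos.ne'
  obtain ⟨x, hx, hx0⟩ := Finset.exists_ne_zero_of_sum_ne_zero hne
  have : ∀ w, ∃ n ∈ L' w, (n : ℚ) = x w := fun w => by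
    have := Fintype.mem_piFinset.1 hx w
    simpa [A] using this
  choose y hy hyx using this
  refine ⟨y, fun w => hL' w (hy w), fun w b hb h => hx0 ?_⟩
  rw [hev, Finset.prod_eq_zero (Finset.mem_univ w), zero_div]
  refine Finset.prod_eq_zero (Finset.mem_erase.2 ⟨hb, Finset.mem_univ b⟩) ?_
  rw [← hyx, ← hyx, h, sub_self]

end Pool.Agent.P.MP_fb43a4_co
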