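import Mathlib
import Pool.Agent.P.MP_fb43a4_co.Rainbow

set_option autoImplicit false

namespace Pool.Agent.P.MP_fb43a4_co

open Classical in
/-- Out-cliques up to fuzzy pairs of cliques give chromatic choosability. -/
theorem fuzzy {V : Type} [Fintype V] (G : SimpleGraph V) {ι : Type}
    (K : V → Set V) (A B : ι → Set V)
    (hAA : ∀ i j v, v ∈ A i → v ∈ A j → i = j)
    (hBB : ∀ i j v, v ∈ B i → v ∈ B j → i = j)
    (hAB : ∀ i j v, v ∈ A i → v ∉ B j)
    (hKv : ∀ v, v ∈ K v)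
    (hKA : ∀ i, ∀ v ∈ A i, ∀ w ∈ A i, w ∈ K v)
    (hKAB : ∀ i, ∀ v ∈ A i, ∀ w ∈ B i, w ∈ K v)
    (hKB : ∀ i, ∀ v ∈ B i, ∀ w ∈ B i, w ∈ K v)
    (hcov : ∀ u w, G.Adj u w → w ∈ K u ∨ u ∈ K w)
    (hcl : ∀ v, ∀ u ∈ K v, ∀ w ∈ K v, u ≠ w → G.Adj u w ∨
      ∃ i, v ∈ A i ∧ ((u ∈ A i ∧ w ∈ B i) ∨ (w ∈ A i ∧ u ∈ B i)))
    (k : ℕ) (hk : G.Colorable k) (L : V → Finset ℕ) (hL : ∀ v, k ≤ (L v).card) :
    ∃ col : V → ℕ, (∀ v, col v ∈ L v) ∧ ∀ u v, G.Adj u v → col u ≠ col v := by
  obtain ⟨C⟩ := hk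
  let c : V → Fin k := fun v => C v
  have hc : ∀ u w, G.Adj u w → c u ≠ c w := fun u w h => C.valid h
  let M : ι → Fin k → Prop := fun i a => (∃ x ∈ A i, c x = a) ∧ ∃ y ∈ B i, c y = a
  let R : V → Set V := fun v => {w | w ∈ K v ∧ ¬ ∃ i, v ∈ A i ∧ w ∈ A i ∧ M i (c w)}
  have hRinj : ∀ v, ∀ u ∈ R v, ∀ w ∈ R v, c u = c w → u = w := by
    intro v u hu w hw h
    by_contra hne
    rcases hcl v u hu.1 w hw.1 hne with hadj | ⟨i, hv, ⟨h1, h2⟩ | ⟨h1, h2⟩⟩
    · exact hc u w hadj h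
    · exact hu.2 ⟨i, hv, h1, ⟨u, h1, rfl⟩, w, h2, h.symm⟩
    · exact hw.2 ⟨i, hv, h1, ⟨w, h1, rfl⟩, u, h2, h⟩
  have hAinj : ∀ i, ∀ u ∈ A i, ∀ w ∈ A i, c u = c w → u = w := by
    intro i u hu w hw h
    by_contra hne
    rcases hcl u u (hKv u) w (hKA i u hu w hw) hne with hadj | ⟨j, _, ⟨_, h2⟩ | ⟨_, h2⟩⟩
    · exact hc u w hadj h
    · exact hAB i j w hw h2
    · exact hAB i j u hu h2
  have hBR : ∀ i v w, (v ∈ A i ∨ v ∈ B i) → w ∈ B i → w ∈ R v := by
    intro i v w hv hw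
    refine ⟨?_, ?_⟩
    · rcases hv with hv | hv
      · exact hKAB i v hv w hw
      · exact hKB i v hv w hw
    · rintro ⟨j, _, h2, _⟩
      exact hAB j i w h2 hw
  let κ : V → Fin k → V ⊕ (V × Fin k) := fun v b =>
    if h : ∃ w ∈ R v, c w = b then Sum.inl h.choose else Sum.inr (v, b)
  have hκ : ∀ v w, w ∈ R v → κ v (c w) = Sum.inl w := by
    intro v w hw
    have h : ∃ w' ∈ R v, c w' = c w := ⟨w, hw, rfl⟩
    simp only [κ, dif_pos h]
    exact congrArg _ (hRinj v _ h.choose_spec.1 w hw h.choose_spec.2)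
  have hκ' : ∀ v b, (∃ w ∈ R v, c w = b ∧ κ v b = Sum.inl w) ∨ κ v b = Sum.inr (v, b) := by
    intro v b
    by_cases h : ∃ w ∈ R v, c w = b
    · obtain ⟨w, hw, rfl⟩ := h
      exact Or.inl ⟨w, hw, rfl, hκ v w hw⟩
    · right
      simp only [κ, dif_neg h]
  let cond : V → Fin k → V → Prop := fun v b x => ∃ i, x ∈ A i ∧ c x = b ∧ M i b ∧ M i (c v) ∧
    ((v ∈ A i ∧ c v < b) ∨ (v ∈ B i ∧ b < c v))
  have hcondu : ∀ v b x x', cond v b x → cond v b x' → x = x' := by
    rintro v b x x' ⟨i, h1, h2, _, _, h5⟩ ⟨j, g1, g2, _, _, g5⟩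
    have : i = j := by
      rcases h5 with ⟨h5, _⟩ | ⟨h5, _⟩ <;> rcases g5 with ⟨g5, _⟩ | ⟨g5, _⟩
      · exact hAA i j v h5 g5
      · exact (hAB i j v h5 g5).elim
      · exact (hAB j i v g5 h5).elim
      · exact hBB i j v h5 g5
    subst this
    exact hAinj i x h1 x' g1 (h2.trans g2.symm)
  let ρ : V ⊕ (V × Fin k) → Fin k → V ⊕ (V × Fin k) := fun z b =>
    match z with
    | Sum.inl v => if h : ∃ x, cond v b x then Sum.inl h.choose else κ v b
    | Sum.inr p => κ p.1 b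
  have hρ1 : ∀ v b x, cond v b x → ρ (Sum.inl v) b = Sum.inl x := by
    intro v b x hx
    have h : ∃ x, cond v b x := ⟨x, hx⟩
    simp only [ρ, dif_pos h]
    exact congrArg _ (hcondu v b _ x h.choose_spec hx)
  have hρ2 : ∀ v b, (¬ ∃ x, cond v b x) → ρ (Sum.inl v) b = κ v b := by
    intro v b h
    simp only [ρ, dif_neg h]
  have hρ3 : ∀ v b0 b, ρ (Sum.inr (v, b0)) b = κ v b := fun _ _ _ => rfl
  let cc : V ⊕ (V × Fin k) → Fin k := fun z =>
    match z with
    | Sum.inl v => c v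
    | Sum.inr p => p.2
  have hccκ : ∀ v b, cc (κ v b) = b := by
    intro v b
    rcases hκ' v b with ⟨w, _, h2, h3⟩ | h
    · rw [h3]; exact h2
    · rw [h]
  -- coverage
  have hCov : ∀ u w, w ∈ K u → c u ≠ c w →
      ρ (Sum.inl u) (c w) = Sum.inl w ∨ ρ (Sum.inl w) (c u) = Sum.inl u := by
    intro u w hw hne
    by_cases h : ∃ x, cond u (c w) x
    · obtain ⟨x, hx⟩ := h
      obtain ⟨i, h1, h2, h3, h4, ⟨h5, h6⟩ | ⟨h5, h6⟩⟩ := id hx
      · by_cases hxw : x = w
        · left; rw [hρ1 u _ x hx, hxw]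
        · right
          have hwB : w ∈ B i := by
            rcases hcl u x (hKA i u h5 x h1) w hw hxw with hadj | ⟨j, g0, ⟨_, g2⟩ | ⟨_, g2⟩⟩
            · exact (hc x w hadj h2).elim
            · rw [hAA i j u h5 g0]; exact g2
            · exact (hAB i j x h1 g2).elim
          exact hρ1 w _ u ⟨i, h5, rfl, h4, h3, Or.inr ⟨hwB, h6⟩⟩
      · right
        obtain ⟨y, hy, hyc⟩ := h3.2
        have hwR : w ∈ R u := ⟨hw, fun ⟨j, g, _⟩ => hAB j i u g h5⟩
        have hwy : w = y := hRinj u w hwR y (hBR i u y (Or.inr h5) hy) hyc.symm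
        subst hwy
        rw [hρ2, hκ w u (hBR i w u (Or.inr hy) h5)]
        rintro ⟨x', j, _, _, _, _, ⟨g5, _⟩ | ⟨_, g6⟩⟩
        · exact hAB j i w g5 hy
        · exact lt_asymm h6 g6
    · by_cases hwR : w ∈ R u
      · left; rw [hρ2 u _ h, hκ u w hwR]
      · right
        have : ∃ i, u ∈ A i ∧ w ∈ A i ∧ M i (c w) := by
          by_contra hh
          exact hwR ⟨hw, hh⟩
        obtain ⟨i, h1, h2, h3⟩ := this
        by_cases hM : M i (c u)
        · have hlt : c w < c u := by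
            rcases lt_or_gt_of_ne hne with hlt | hlt
            · exact (h ⟨w, i, h2, rfl, h3, hM, Or.inl ⟨h1, hlt⟩⟩).elim
            · exact hlt
          exact hρ1 w _ u ⟨i, h1, rfl, hM, h3, Or.inl ⟨h2, hlt⟩⟩
        · have huR : u ∈ R w := by
            refine ⟨hKA i w h2 u h1, ?_⟩
            rintro ⟨j, g1, _, g3⟩
            rw [← hAA i j w h2 g1] at g3
            exact hM g3
          rw [hρ2, hκ w u huR]
          rintro ⟨x', j, _, _, g3, _, ⟨g5, _⟩ | ⟨g5, _⟩⟩
          · rw [← hAA i j w h2 g5] at g3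
            exact hM g3
          · exact hAB i j w h2 g5
  let LL : V ⊕ (V × Fin k) → Finset ℕ := fun z =>
    match z with
    | Sum.inl v => L v
    | Sum.inr _ => Finset.range k
  refine (rainbow k cc ρ ?h1 ?h2 LL ?h3).elim fun x hx0 => ?main
  rotate_right
  · obtain ⟨hxL, hx⟩ := hx0
    refine ⟨fun v => x (Sum.inl v), fun v => hxL (Sum.inl v), ?_⟩
    have key : ∀ u w, w ∈ K u → c u ≠ c w → x (Sum.inl u) ≠ x (Sum.inl w) := by
      intro u w hw hne
      rcases hCov u w hw hne with h | h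
      · have := hx (Sum.inl u) (c w) hne.symm
        rw [h] at this
        exact this.symm
      · have := hx (Sum.inl w) (c u) hne
        rw [h] at this
        exact this
    intro u w huw
    rcases hcov u w huw with h | h
    · exact key u w h (hc u w huw)
    · exact (key w u h (hc u w huw).symm).symm
  · rintro (v | ⟨v, b0⟩) b _
    · by_cases h : ∃ x, cond v b x
      · obtain ⟨x, hx⟩ := h
        rw [hρ1 v b x hx]
        obtain ⟨i, _, h2, _⟩ := hx
        exact h2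
      · rw [hρ2 v b h, hccκ]
    · rw [hρ3, hccκ]
  · intro c' hc'
    have key : ∀ u w, w ∈ K u → c u ≠ c w → c' (Sum.inl u) ≠ c' (Sum.inl w) := by
      intro u w hw hne
      rcases hCov u w hw hne with h | h
      · have := hc' (Sum.inl u) (c w) hne.symm
        rw [h] at this
        exact this.symm
      · have := hc' (Sum.inl w) (c u) hne
        rw [h] at this
        exact this
    have hκinj : ∀ v, Function.Injective (fun b => c' (κ v b)) := by
      intro v b b' h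
      by_contra hne
      simp only at h
      rcases hκ' v b with ⟨u, hu, h2, h3⟩ | h3
      · rcases hκ' v b' with ⟨w, hw, g2, g3⟩ | g3
        · rw [h3, g3] at h
          have hcne : c u ≠ c w := by rw [h2, g2]; exact hne
          have hune : u ≠ w := fun e => hcne (by rw [e])
          rcases hcl v u hu.1 w hw.1 hune with hadj | ⟨i, _, ⟨e1, e2⟩ | ⟨e1, e2⟩⟩
          · rcases hcov u w hadj with e | e
            · exact key u w e hcne h
            · exact key w u e hcne.symm h.symm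
          · exact key u w (hKAB i u e1 w e2) hcne h
          · exact key w u (hKAB i w e1 u e2) hcne.symm h.symm
        · have := hc' (Sum.inr (v, b')) b hne
          rw [hρ3, ← g3] at this
          exact this h
      · have := hc' (Sum.inr (v, b)) b' (Ne.symm hne)
        rw [hρ3, ← h3] at this
        exact this h.symm
    have htwin : ∀ i, ∀ x ∈ A i, ∀ y ∈ B i, c x = c y → c' (Sum.inl x) = c' (Sum.inl y) := by
      intro i x hx y hy hxy
      obtain ⟨b, hb⟩ := (Finite.injective_iff_surjective.1 (hκinj x)) (c' (Sum.inl x))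
      simp only at hb
      by_cases hbx : b = c x
      · rw [hbx, hxy, hκ x y (hBR i x y (Or.inl hx) hy)] at hb
        exact hb.symm
      · exfalso
        by_cases h : ∃ x', cond x b x'
        · obtain ⟨x', j, _, _, g3, g4, ⟨g5, g6⟩ | ⟨g5, _⟩⟩ := h
          · obtain ⟨y', hy', hy'c⟩ := g3.2
            rw [← hy'c, hκ x y' (hBR j x y' (Or.inl g5) hy')] at hb
            exact key x y' (hKAB j x g5 y' hy') (by rw [hy'c]; exact Ne.symm hbx) hb.symm
          · exact hAB i j x hx g5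
        · have := hc' (Sum.inl x) b hbx
          rw [hρ2 x b h] at this
          exact this hb
    have hfin : ∀ v b, c' (ρ (Sum.inl v) b) = c' (κ v b) := by
      intro v b
      by_cases h : ∃ x, cond v b x
      · obtain ⟨x, hx⟩ := h
        rw [hρ1 v b x hx]
        obtain ⟨i, h1, h2, h3, _, h5⟩ := hx
        obtain ⟨y, hy, hyc⟩ := h3.2
        have hv : v ∈ A i ∨ v ∈ B i := by
          rcases h5 with ⟨h5, _⟩ | ⟨h5, _⟩
          · exact Or.inl h5
          · exact Or.inr h5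
        rw [← hyc, hκ v y (hBR i v y hv hy)]
        exact htwin i x h1 y hy (h2.trans hyc.symm)
      · rw [hρ2 v b h]
    rintro (v | ⟨v, b0⟩) b b' _ _ h
    · rw [hfin, hfin] at h
      exact hκinj v h
    · rw [hρ3, hρ3] at h
      exact hκinj v h
  · rintro (v | p)
    · exact hL v
    · simp [LL]

end Pool.Agent.P.MP_fb43a4_co
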