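import Mathlib

set_option autoImplicit false

namespace Pool.Agent.P.MP_fb43a4_co.NearBip

open Finset

/-- Stable matchings (Gale and Shapley) in a bipartite multigraph. -/
theorem kernel {E V : Type} [DecidableEq E] (row col : E → V) (p q : E → ℤ)
    (hp : ∀ e f, row e = row f → p e = p f → e = f)
    (hq : ∀ e f, col e = col f → q e = q f → e = f) (Z : Finset E) :
    ∃ M : Finset E, M ⊆ Z ∧ (∀ e ∈ M, ∀ f ∈ M, e ≠ f → row e ≠ row f ∧ col e ≠ col f) ∧
      ∀ z ∈ Z, z ∉ M → ∃ m ∈ M, (row m = row z ∧ p m < p z) ∨ (col m = col z ∧ q m < q z) := by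
  classical
  induction Z using Finset.strongInduction with
  | H Z ih =>
    set T : Finset E := Z.filter (fun u => ∀ v ∈ Z, row v = row u → p u ≤ p v) with hT
    by_cases h : ∃ u ∈ T, ∃ v ∈ T, col u = col v ∧ q u < q v
    · obtain ⟨u, hu, v, hv, hc, hlt⟩ := h
      have hvZ : v ∈ Z := (mem_filter.1 hv).1
      have huZ : u ∈ Z := (mem_filter.1 hu).1
      have huv : u ≠ v := by rintro rfl; exact lt_irrefl _ hlt
      obtain ⟨M, hM, hM2, hM3⟩ := ih (Z.erase v) (erase_ssubset hvZ)
      refine ⟨M, hM.trans (erase_subset _ _), hM2, ?_⟩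
      intro z hz hzM
      by_cases hzv : z = v
      · subst hzv
        by_cases huM : u ∈ M
        · exact ⟨u, huM, Or.inr ⟨hc, hlt⟩⟩
        · obtain ⟨m, hm, h1 | h1⟩ := hM3 u (mem_erase.2 ⟨huv, huZ⟩) huM
          · have := (mem_filter.1 hu).2 m ((erase_subset _ _) (hM hm)) h1.1
            omega
          · exact ⟨m, hm, Or.inr ⟨h1.1.trans hc, h1.2.trans hlt⟩⟩
      · exact hM3 z (mem_erase.2 ⟨hzv, hz⟩) hzM
    · push Not at h
      refine ⟨T, filter_subset _ _, ?_, ?_⟩
      · intro e he f hf hne
        constructor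
        · intro hr
          have h1 := (mem_filter.1 he).2 f (mem_filter.1 hf).1 hr.symm
          have h2 := (mem_filter.1 hf).2 e (mem_filter.1 he).1 hr
          exact hne (hp e f hr (le_antisymm h1 h2))
        · intro hr
          have h1 := h e he f hf hr
          have h2 := h f hf e he hr.symm
          exact hne (hq e f hr (le_antisymm h2 h1))
      · intro z hz hzT
        obtain ⟨m, hm, hmin⟩ := exists_min_image (Z.filter (fun v => row v = row z)) p
          ⟨z, mem_filter.2 ⟨hz, rfl⟩⟩
        have hmZ := (mem_filter.1 hm).1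
        have hmr := (mem_filter.1 hm).2
        have hmT : m ∈ T := mem_filter.2 ⟨hmZ, fun v hv hr =>
          hmin v (mem_filter.2 ⟨hv, hr.trans hmr⟩)⟩
        refine ⟨m, hmT, Or.inl ⟨hmr, ?_⟩⟩
        have h1 := hmin z (mem_filter.2 ⟨hz, rfl⟩)
        rcases lt_or_eq_of_le h1 with h1 | h1
        · exact h1
        · exact (hzT (hp m z hmr h1 ▸ hmT)).elim

/-- A homogeneous system with fewer equations than unknowns has a nonzero solution. -/
theorem exists_dir {ι : Type} [DecidableEq ι] (C : Finset ℕ) (I : Finset ι) (S : ι → Finset ℕ)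
    (h : I.card < C.card) :
    ∃ z : ℕ → ℝ, (∃ c ∈ C, z c ≠ 0) ∧ ∀ i ∈ I, ∑ c ∈ C.filter (· ∈ S i), z c = 0 := by
  classical
  let φ : (C → ℝ) →ₗ[ℝ] (I → ℝ) :=
    { toFun := fun y i => ∑ c : C, if (c : ℕ) ∈ S i then y c else 0
      map_add' := by
        intro y y'
        funext i
        simp only [Pi.add_apply, ← sum_add_distrib]
        refine sum_congr rfl fun c _ => ?_
        split_ifs <;> simp
      map_smul' := by
        intro a y
        funext i
        simp only [Pi.smul_apply, smul_eq_mul, RingHom.id_apply, mul_sum]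
        refine sum_congr rfl fun c _ => ?_
        split_ifs <;> simp }
  have hk : LinearMap.ker φ ≠ ⊥ := by
    apply LinearMap.ker_ne_bot_of_finrank_lt
    simpa using h
  obtain ⟨y, hy, hy0⟩ := Submodule.exists_mem_ne_zero_of_ne_bot hk
  refine ⟨fun c => if hc : c ∈ C then y ⟨c, hc⟩ else 0, ?_, ?_⟩
  · by_contra hcon
    push Not at hcon
    apply hy0
    funext c
    have := hcon c c.2
    simpa using this
  · intro i hi
    have h1 : φ y ⟨i, hi⟩ = 0 := by rw [LinearMap.mem_ker.1 hy]; rfl
    have h2 : φ y ⟨i, hi⟩ = ∑ c : C, if (c : ℕ) ∈ S i then y c else 0 := rfl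
    rw [h2] at h1
    rw [sum_filter, ← sum_coe_sort C]
    refine Eq.trans (sum_congr rfl fun c _ => ?_) h1
    simp

/-- Moving along a nonzero direction until a face of the cube is reached. -/
theorem move (C : Finset ℕ) (x z : ℕ → ℝ) (hx : ∀ c ∈ C, 0 ≤ x c ∧ x c ≤ 1)
    (hz : ∃ c ∈ C, z c ≠ 0) :
    ∃ t : ℝ, (∀ c ∈ C, 0 ≤ x c + t * z c ∧ x c + t * z c ≤ 1) ∧
      ∃ c ∈ C, x c + t * z c = 0 ∨ x c + t * z c = 1 := by
  classical
  obtain ⟨c1, hc1, hz1⟩ := hz
  obtain ⟨c0, hc0, hmin⟩ := exists_min_image (C.filter (fun c => z c ≠ 0))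
    (fun c => if 0 < z c then (1 - x c) / z c else x c / (- z c)) ⟨c1, mem_filter.2 ⟨hc1, hz1⟩⟩
  have hc0C := (mem_filter.1 hc0).1
  have hz0 := (mem_filter.1 hc0).2
  set t : ℝ := if 0 < z c0 then (1 - x c0) / z c0 else x c0 / (- z c0) with ht
  have ht0 : 0 ≤ t := by
    have := hx c0 hc0C
    rw [ht]
    split_ifs with h
    · exact div_nonneg (by linarith [this.2]) h.le
    · exact div_nonneg this.1 (by linarith [not_lt.1 h])
  refine ⟨t, ?_, c0, hc0C, ?_⟩
  · intro c hc
    have hxc := hx c hc
    by_cases hzc : z c = 0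
    · simp [hzc, hxc.1, hxc.2]
    · have h1 := hmin c (mem_filter.2 ⟨hc, hzc⟩)
      by_cases h : 0 < z c
      · simp only [h, if_true] at h1
        have h2 := (le_div_iff₀ h).1 h1
        constructor
        · nlinarith [mul_nonneg ht0 h.le]
        · linarith
      · simp only [h, if_false] at h1
        have h3 : 0 < - z c := by
          rcases lt_trichotomy (z c) 0 with h4 | h4 | h4
          · linarith
          · exact (hzc h4).elim
          · exact (h h4).elim
        have h2 := (le_div_iff₀ h3).1 h1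
        constructor
        · linarith
        · nlinarith [mul_nonneg ht0 h3.le]
  · rw [ht]
    split_ifs with h
    · right; field_simp; ring
    · left; field_simp; ring

/-- The rounding lemma: a feasible fractional split of the colours can be replaced by a feasible
one with an integral coordinate. -/
theorem round {E : Type} [DecidableEq E] (A B : Finset E) (C : Finset ℕ) (hC : C.Nonempty)
    (L : E → Finset ℕ) (r : E → ℝ) (x : ℕ → ℝ) (hx : ∀ c ∈ C, 0 ≤ x c ∧ x c ≤ 1)
    (hA : ∀ e ∈ A, r e ≤ ∑ c ∈ C.filter (· ∈ L e), x c)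
    (hB : ∀ e ∈ B, r e ≤ ∑ c ∈ C.filter (· ∈ L e), (1 - x c))
    (hlA : A.Nonempty → ∃ e ∈ A, (A.card : ℝ) ≤ r e)
    (hlB : B.Nonempty → ∃ e ∈ B, (B.card : ℝ) ≤ r e) :
    ∃ y : ℕ → ℝ, (∀ c ∈ C, 0 ≤ y c ∧ y c ≤ 1) ∧
      (∀ e ∈ A, r e ≤ ∑ c ∈ C.filter (· ∈ L e), y c) ∧
      (∀ e ∈ B, r e ≤ ∑ c ∈ C.filter (· ∈ L e), (1 - y c)) ∧ ∃ c ∈ C, y c = 0 ∨ y c = 1 := by
  classical
  by_cases h0 : ∃ c ∈ C, x c = 0 ∨ x c = 1
  · exact ⟨x, hx, hA, hB, h0⟩
  push Not at h0
  have hpos : ∀ c ∈ C, 0 < x c := fun c hc => lt_of_le_of_ne (hx c hc).1 (h0 c hc).1.symm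
  have hlt : ∀ c ∈ C, 0 < 1 - x c := fun c hc =>
    sub_pos.2 (lt_of_le_of_ne (hx c hc).2 (h0 c hc).2)
  obtain ⟨c1, hc1⟩ := hC
  by_cases hAe : A = ∅
  · refine ⟨fun _ => 0, by simp, by simp [hAe], ?_, c1, hc1, Or.inl rfl⟩
    intro e he
    refine (hB e he).trans (sum_le_sum fun c hc => ?_)
    have := hx c (mem_filter.1 hc).1
    linarith [this.1]
  by_cases hBe : B = ∅
  · refine ⟨fun _ => 1, by simp, ?_, by simp [hBe], c1, hc1, Or.inr rfl⟩
    intro e he
    exact (hA e he).trans (sum_le_sum fun c hc => (hx c (mem_filter.1 hc).1).2)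
  obtain ⟨a, ha, har⟩ := hlA (nonempty_iff_ne_empty.2 hAe)
  obtain ⟨b, hb, hbr⟩ := hlB (nonempty_iff_ne_empty.2 hBe)
  have hz : ∃ z : ℕ → ℝ, (∃ c ∈ C, z c ≠ 0) ∧
      ∀ i ∈ A ∪ B, ∑ c ∈ C.filter (· ∈ L i), z c = 0 := by
    by_cases hcard : (A ∪ B).card < C.card
    · exact exists_dir C (A ∪ B) L hcard
    have hcard' : (C.card : ℝ) ≤ A.card + B.card := by
      have := card_union_le A B
      have h2 : C.card ≤ A.card + B.card := by omega
      exact_mod_cast h2
    have hsum : ∑ c ∈ C, x c + ∑ c ∈ C, (1 - x c) = C.card := by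
      rw [← sum_add_distrib]; simp
    have h1 : ∑ c ∈ C.filter (· ∈ L a), x c ≤ ∑ c ∈ C, x c :=
      sum_le_sum_of_subset_of_nonneg (filter_subset _ _) fun c hc _ => (hpos c hc).le
    have h2 : ∑ c ∈ C.filter (· ∈ L b), (1 - x c) ≤ ∑ c ∈ C, (1 - x c) :=
      sum_le_sum_of_subset_of_nonneg (filter_subset _ _) fun c hc _ => (hlt c hc).le
    have h3 := hA a ha
    have h4 := hB b hb
    have hfa : C.filter (· ∈ L a) = C := by
      by_contra hne
      have hss : C.filter (· ∈ L a) ⊂ C :=
        Finset.ssubset_iff_subset_ne.2 ⟨filter_subset _ _, hne⟩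
      obtain ⟨c, hc, hcn⟩ := exists_of_ssubset hss
      have := sum_lt_sum_of_subset (filter_subset (· ∈ L a) C) hc hcn (hpos c hc)
        (fun j hj _ => (hpos j hj).le)
      linarith
    have hfb : C.filter (· ∈ L b) = C := by
      by_contra hne
      have hss : C.filter (· ∈ L b) ⊂ C :=
        Finset.ssubset_iff_subset_ne.2 ⟨filter_subset _ _, hne⟩
      obtain ⟨c, hc, hcn⟩ := exists_of_ssubset hss
      have := sum_lt_sum_of_subset (f := fun c => 1 - x c) (filter_subset (· ∈ L b) C) hc hcn
        (hlt c hc) (fun j hj _ => (hlt j hj).le)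
      linarith
    have hCge : A.card + B.card ≤ C.card := by
      have : (A.card : ℝ) + B.card ≤ C.card := by linarith
      exact_mod_cast this
    have hI : (A ∪ B.erase b).card < C.card := by
      have := card_union_le A (B.erase b)
      have h5 := card_erase_of_mem hb
      have h6 := card_pos.2 ⟨b, hb⟩
      omega
    obtain ⟨z, hz1, hz2⟩ := exists_dir C (A ∪ B.erase b) L hI
    refine ⟨z, hz1, fun i hi => ?_⟩
    by_cases hib : i = b
    · rw [hib, hfb, ← hfa]
      exact hz2 a (mem_union_left _ ha)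
    · rcases mem_union.1 hi with hi | hi
      · exact hz2 i (mem_union_left _ hi)
      · exact hz2 i (mem_union_right _ (mem_erase.2 ⟨hib, hi⟩))
  obtain ⟨z, hz1, hz2⟩ := hz
  obtain ⟨t, ht1, ht2⟩ := move C x z hx hz1
  refine ⟨fun c => x c + t * z c, ht1, ?_, ?_, ht2⟩
  · intro e he
    rw [sum_add_distrib, ← mul_sum, hz2 e (mem_union_left _ he)]
    simpa using hA e he
  · intro e he
    have h1 : ∑ c ∈ C.filter (· ∈ L e), (1 - (x c + t * z c)) =
        ∑ c ∈ C.filter (· ∈ L e), (1 - x c) - t * ∑ c ∈ C.filter (· ∈ L e), z c := by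
      rw [mul_sum, ← sum_sub_distrib]
      exact sum_congr rfl fun c _ => by ring
    rw [h1, hz2 e (mem_union_right _ he)]
    simpa using hB e he

/-- Number of better uncoloured edges at the two ends of `e`. -/
def out {E V : Type} [DecidableEq V] (row col : E → V) (p q : E → ℤ) (U : Finset E) (e : E) : ℕ :=
  (U.filter (fun f => row f = row e ∧ p f < p e)).card +
    (U.filter (fun f => col f = col e ∧ q f < q e)).card

theorem out_mono {E V : Type} [DecidableEq V] (row col : E → V) (p q : E → ℤ)
    {U U' : Finset E} (h : U' ⊆ U) (e : E) : out row col p q U' e ≤ out row col p q U e :=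
  add_le_add (card_le_card (filter_subset_filter _ h)) (card_le_card (filter_subset_filter _ h))

theorem out_lt {E V : Type} [DecidableEq V] (row col : E → V) (p q : E → ℤ)
    {U U' : Finset E} (h : U' ⊆ U) (e m : E) (hm : m ∈ U) (hm' : m ∉ U')
    (hd : (row m = row e ∧ p m < p e) ∨ (col m = col e ∧ q m < q e)) :
    out row col p q U' e + 1 ≤ out row col p q U e := by
  unfold out
  have h1 := card_le_card (filter_subset_filter (fun f => row f = row e ∧ p f < p e) h)
  have h2 := card_le_card (filter_subset_filter (fun f => col f = col e ∧ q f < q e) h)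
  rcases hd with hd | hd
  · have : (U'.filter (fun f => row f = row e ∧ p f < p e)).card <
        (U.filter (fun f => row f = row e ∧ p f < p e)).card :=
      card_lt_card ⟨filter_subset_filter _ h, fun hc =>
        hm' (mem_filter.1 (hc (mem_filter.2 ⟨hm, hd⟩))).1⟩
    omega
  · have : (U'.filter (fun f => col f = col e ∧ q f < q e)).card <
        (U.filter (fun f => col f = col e ∧ q f < q e)).card :=
      card_lt_card ⟨filter_subset_filter _ h, fun hc =>
        hm' (mem_filter.1 (hc (mem_filter.2 ⟨hm, hd⟩))).1⟩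
    omega

/-- The share of colour `c` that edge `e` receives under the fractional split `x`. -/
def wt {E V : Type} [DecidableEq V] (row col : E → V) (s : V) (x : ℕ → ℝ) (e : E) (c : ℕ) : ℝ :=
  if col e = s then x c else if row e = s then 1 - x c else 1

theorem last {E V : Type} [DecidableEq E] [DecidableEq V] (col : E → V) (q : E → ℤ)
    (hq : ∀ e f, col e = col f → q e = q f → e = f) (s : V) (U : Finset E)
    (hne : (U.filter (fun e => col e = s)).Nonempty) :
    ∃ e ∈ U.filter (fun e => col e = s), (U.filter (fun e => col e = s)).card ≤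
      (U.filter (fun f => col f = col e ∧ q f < q e)).card + 1 := by
  obtain ⟨e, he, hmax⟩ := exists_max_image _ q hne
  refine ⟨e, he, ?_⟩
  have hes := (mem_filter.1 he).2
  have hsub : (U.filter (fun e => col e = s)).erase e ⊆
      U.filter (fun f => col f = col e ∧ q f < q e) := by
    intro f hf
    have hf1 := (mem_erase.1 hf).1
    have hf2 := (mem_erase.1 hf).2
    have hfs := (mem_filter.1 hf2).2
    refine mem_filter.2 ⟨(mem_filter.1 hf2).1, hfs.trans hes.symm, ?_⟩
    exact lt_of_le_of_ne (hmax f hf2) fun h => hf1 (hq f e (hfs.trans hes.symm) h)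
  have h1 := card_le_card hsub
  have h2 := card_erase_of_mem he
  omega

theorem core {E V : Type} [DecidableEq E] [DecidableEq V] (row col : E → V) (s : V)
    (hloop : ∀ e, row e ≠ col e) (p q : E → ℤ)
    (hp : ∀ e f, row e = row f → p e = p f → e = f)
    (hq : ∀ e f, col e = col f → q e = q f → e = f) (L : E → Finset ℕ) (n : ℕ) :
    ∀ (C : Finset ℕ) (U : Finset E) (x : ℕ → ℝ), C.card = n → (∀ c ∈ C, 0 ≤ x c ∧ x c ≤ 1) →
      (∀ e ∈ U, (out row col p q U e : ℝ) + 1 ≤ ∑ c ∈ C.filter (· ∈ L e), wt row col s x e c) →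
      ∃ φ : E → ℕ, (∀ e ∈ U, φ e ∈ C ∧ φ e ∈ L e) ∧ ∀ e ∈ U, ∀ f ∈ U, e ≠ f →
        (row e = row f ∨ col e = col f ∨ (col e = s ∧ row f = s)) → φ e ≠ φ f := by
  induction n with
  | zero =>
    intro C U x hC _ hU
    refine ⟨fun _ => 0, fun e he => ?_, fun e he => ?_⟩ <;>
    · have := hU e he
      rw [card_eq_zero.1 hC] at this
      simp at this
      have h2 : (0 : ℝ) ≤ out row col p q U e := Nat.cast_nonneg _
      linarith
  | succ n ih =>
    intro C U x hC hx hU
    have hCne : C.Nonempty := card_pos.1 (by omega)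
    obtain ⟨y, hy, hyA, hyB, c, hcC, hc⟩ := round (U.filter (fun e => col e = s))
      (U.filter (fun e => row e = s)) C hCne L (fun e => (out row col p q U e : ℝ) + 1) x hx
      (by
        intro e he
        have := hU e (mem_filter.1 he).1
        simpa [wt, (mem_filter.1 he).2] using this)
      (by
        intro e he
        have := hU e (mem_filter.1 he).1
        have h1 := (mem_filter.1 he).2
        have h2 : col e ≠ s := fun h => hloop e (h1.trans h.symm)
        simpa only [wt, h1, h2, if_true, if_false] using this)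
      (by
        intro hne
        obtain ⟨e, he, h⟩ := last col q hq s U hne
        refine ⟨e, he, ?_⟩
        have : (U.filter (fun e => col e = s)).card ≤ out row col p q U e + 1 := by
          unfold out; omega
        exact_mod_cast this)
      (by
        intro hne
        obtain ⟨e, he, h⟩ := last row p hp s U hne
        refine ⟨e, he, ?_⟩
        have : (U.filter (fun e => row e = s)).card ≤ out row col p q U e + 1 := by
          unfold out; omega
        exact_mod_cast this)
    have hU' : ∀ e ∈ U, (out row col p q U e : ℝ) + 1 ≤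
        ∑ c ∈ C.filter (· ∈ L e), wt row col s y e c := by
      intro e he
      by_cases h1 : col e = s
      · simpa only [wt, h1, if_true] using hyA e (mem_filter.2 ⟨he, h1⟩)
      · by_cases h2 : row e = s
        · simpa only [wt, h1, h2, if_true, if_false] using hyB e (mem_filter.2 ⟨he, h2⟩)
        · simpa only [wt, h1, h2, if_false] using hU e he
    have hw : ∀ e, wt row col s y e c = 0 ∨ wt row col s y e c = 1 := by
      intro e
      unfold wt
      rcases hc with hc | hc <;> split_ifs <;> simp [hc]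
    classical
    obtain ⟨M, hM1, hM2, hM3⟩ := kernel row col p q hp hq
      (U.filter (fun e => c ∈ L e ∧ wt row col s y e c = 1))
    have hMU : M ⊆ U := hM1.trans (filter_subset _ _)
    obtain ⟨ψ, hψ1, hψ2⟩ := ih (C.erase c) (U \ M) y (by rw [card_erase_of_mem hcC]; omega)
      (fun d hd => hy d (mem_of_mem_erase hd)) (by
        intro e he
        have heU := (mem_sdiff.1 he).1
        have heM := (mem_sdiff.1 he).2
        have h0 := hU' e heU
        have hmono : (out row col p q (U \ M) e : ℝ) ≤ out row col p q U e := by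
          exact_mod_cast out_mono row col p q sdiff_subset e
        rw [filter_erase]
        by_cases hcl : c ∈ L e
        · have hmem : c ∈ C.filter (· ∈ L e) := mem_filter.2 ⟨hcC, hcl⟩
          rw [← add_sum_erase _ _ hmem] at h0
          rcases hw e with h1 | h1
          · linarith
          · obtain ⟨m, hm, hd⟩ := hM3 e (mem_filter.2 ⟨heU, hcl, h1⟩) heM
            have h2 : (out row col p q (U \ M) e : ℝ) + 1 ≤ out row col p q U e := by
              exact_mod_cast out_lt row col p q sdiff_subset e m (hMU hm)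
                (fun h => (mem_sdiff.1 h).2 hm) hd
            linarith
        · rw [erase_eq_of_notMem (fun h => hcl (mem_filter.1 h).2)]
          linarith)
    refine ⟨fun e => if e ∈ M then c else ψ e, ?_, ?_⟩
    · intro e he
      by_cases heM : e ∈ M
      · simp only [heM, if_true]
        exact ⟨hcC, (mem_filter.1 (hM1 heM)).2.1⟩
      · simp only [heM, if_false]
        have := hψ1 e (mem_sdiff.2 ⟨he, heM⟩)
        exact ⟨mem_of_mem_erase this.1, this.2⟩
    · intro e he f hf hne hadj
      by_cases heM : e ∈ M <;> by_cases hfM : f ∈ M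
      · exfalso
        have h1 := hM2 e heM f hfM hne
        rcases hadj with h | h | ⟨h2, h3⟩
        · exact h1.1 h
        · exact h1.2 h
        · have h4 := (mem_filter.1 (hM1 heM)).2.2
          have h5 := (mem_filter.1 (hM1 hfM)).2.2
          have h6 : col f ≠ s := fun h => hloop f (h3.trans h.symm)
          simp only [wt, h2, h3, h6, if_true, if_false] at h4 h5
          linarith
      · simp only [heM, hfM, if_true, if_false]
        exact (mem_erase.1 (hψ1 f (mem_sdiff.2 ⟨hf, hfM⟩)).1).1.symm
      · simp only [heM, hfM, if_true, if_false]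
        exact (mem_erase.1 (hψ1 e (mem_sdiff.2 ⟨he, heM⟩)).1).1
      · simp only [heM, hfM, if_false]
        exact hψ2 e (mem_sdiff.2 ⟨he, heM⟩) f (mem_sdiff.2 ⟨hf, hfM⟩) hne hadj

theorem out_le {E V : Type} [DecidableEq E] [DecidableEq V] (row col : E → V) {k : ℕ}
    (φ : E → Fin k) (lam : Fin k → ℤ)
    (hr : ∀ e f, row e = row f → φ e = φ f → e = f)
    (hc : ∀ e f, col e = col f → φ e = φ f → e = f) (U : Finset E) (e : E) (T : Finset (Fin k))
    (heT : φ e ∈ T)
    (h1 : ∀ f, row f = row e → lam (φ e) < lam (φ f) → φ f ∈ T)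
    (h2 : ∀ f, col f = col e → lam (φ f) < lam (φ e) → φ f ∈ T) :
    out row col (fun f => - lam (φ f)) (fun f => lam (φ f)) U e + 1 ≤ T.card := by
  unfold out
  beta_reduce
  have ha : (U.filter (fun f => row f = row e ∧ - lam (φ f) < - lam (φ e))).card ≤
      (T.filter (fun j => lam (φ e) < lam j)).card := by
    refine card_le_card_of_injOn φ ?_ ?_
    · intro f hf
      have hf' := (mem_filter.1 (mem_coe.1 hf)).2
      have h3 : lam (φ e) < lam (φ f) := by linarith [hf'.2]
      exact mem_coe.2 (mem_filter.2 ⟨h1 f hf'.1 h3, h3⟩)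
    · intro f hf g hg hfg
      exact hr f g (((mem_filter.1 (mem_coe.1 hf)).2.1).trans
        ((mem_filter.1 (mem_coe.1 hg)).2.1).symm) hfg
  have hb : (U.filter (fun f => col f = col e ∧ lam (φ f) < lam (φ e))).card ≤
      (T.filter (fun j => lam j < lam (φ e))).card := by
    refine card_le_card_of_injOn φ ?_ ?_
    · intro f hf
      have hf' := (mem_filter.1 (mem_coe.1 hf)).2
      exact mem_coe.2 (mem_filter.2 ⟨h2 f hf'.1 hf'.2, hf'.2⟩)
    · intro f hf g hg hfg
      exact hc f g (((mem_filter.1 (mem_coe.1 hf)).2.1).trans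
        ((mem_filter.1 (mem_coe.1 hg)).2.1).symm) hfg
  have hd : Disjoint (T.filter (fun j => lam (φ e) < lam j))
      (T.filter (fun j => lam j < lam (φ e))) := by
    rw [disjoint_left]
    intro j hj hj'
    have := (mem_filter.1 hj).2
    have := (mem_filter.1 hj').2
    omega
  have hsub : (T.filter (fun j => lam (φ e) < lam j)) ∪ (T.filter (fun j => lam j < lam (φ e))) ⊆
      T.erase (φ e) := by
    intro j hj
    rcases mem_union.1 hj with hj | hj
    · refine mem_erase.2 ⟨?_, (mem_filter.1 hj).1⟩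
      rintro rfl
      exact lt_irrefl _ (mem_filter.1 hj).2
    · refine mem_erase.2 ⟨?_, (mem_filter.1 hj).1⟩
      rintro rfl
      exact lt_irrefl _ (mem_filter.1 hj).2
  have h3 := card_le_card hsub
  rw [card_union_of_disjoint hd, card_erase_of_mem heT] at h3
  have h4 := card_pos.2 ⟨_, heT⟩
  omega

theorem main {E V : Type} [Fintype E] (row col : E → V) (s : V)
    (hloop : ∀ e, row e ≠ col e) {k : ℕ} (φ : E → Fin k)
    (hφ : ∀ e f, e ≠ f → (row e = row f ∨ col e = col f ∨ (col e = s ∧ row f = s)) → φ e ≠ φ f)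
    (L : E → Finset ℕ) (hL : ∀ e, k ≤ (L e).card) :
    ∃ ψ : E → ℕ, (∀ e, ψ e ∈ L e) ∧ ∀ e f, e ≠ f →
      (row e = row f ∨ col e = col f ∨ (col e = s ∧ row f = s)) → ψ e ≠ ψ f := by
  classical
  have hr : ∀ e f, row e = row f → φ e = φ f → e = f := fun e f h1 h2 => by
    by_contra hne
    exact hφ e f hne (Or.inl h1) h2
  have hc : ∀ e f, col e = col f → φ e = φ f → e = f := fun e f h1 h2 => by
    by_contra hne
    exact hφ e f hne (Or.inr (Or.inl h1)) h2
  set TA : Finset (Fin k) := (univ.filter (fun e => col e = s)).image φ with hTA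
  set TB : Finset (Fin k) := (univ.filter (fun e => row e = s)).image φ with hTB
  have hdisj : Disjoint TA TB := by
    rw [disjoint_left]
    intro j hj hj'
    obtain ⟨e, he, rfl⟩ := mem_image.1 hj
    obtain ⟨f, hf, hfe⟩ := mem_image.1 hj'
    have h1 := (mem_filter.1 he).2
    have h2 := (mem_filter.1 hf).2
    refine hφ e f ?_ (Or.inr (Or.inr ⟨h1, h2⟩)) hfe.symm
    rintro rfl
    exact hloop e (h2.trans h1.symm)
  have hab : TA.card + TB.card ≤ k := by
    rw [← card_union_of_disjoint hdisj]
    simpa using card_le_univ (TA ∪ TB)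
  let lam : Fin k → ℤ := fun j =>
    if j ∈ TA then (j : ℕ) + 2 * (k : ℤ) else if j ∈ TB then (j : ℕ) else (j : ℕ) + (k : ℤ)
  have hlam : ∀ i j, lam i = lam j → i = j := by
    intro i j h
    have hi := i.2
    have hj := j.2
    apply Fin.ext
    simp only [lam] at h
    split_ifs at h <;> omega
  have hlamA : ∀ i j, i ∈ TA → lam i < lam j → j ∈ TA := by
    intro i j hi h
    by_contra hj
    have hj2 := j.2
    simp only [lam, hi, hj, if_true, if_false] at h
    split_ifs at h <;> omega
  have hlamB : ∀ i j, i ∈ TB → lam j < lam i → j ∈ TB := by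
    intro i j hi h
    by_contra hj
    have hi2 := i.2
    have hiA : i ∉ TA := fun h => disjoint_left.1 hdisj h hi
    simp only [lam, hi, hj, hiA, if_true, if_false] at h
    split_ifs at h <;> omega
  set C : Finset ℕ := univ.biUnion L with hC
  have hCL : ∀ e, C.filter (· ∈ L e) = L e := by
    intro e
    ext c
    simp only [mem_filter, hC, mem_biUnion, mem_univ, true_and]
    exact ⟨fun h => h.2, fun h => ⟨⟨e, h⟩, h⟩⟩
  have hak : (TA.card : ℝ) + TB.card ≤ k := by exact_mod_cast hab
  have hB0 : (0 : ℝ) ≤ TB.card := Nat.cast_nonneg _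
  have hA0 : (0 : ℝ) ≤ TA.card := Nat.cast_nonneg _
  obtain ⟨ψ, h1, h2⟩ := core row col s hloop (fun f => - lam (φ f)) (fun f => lam (φ f))
    (fun e f h1 h2 => hr e f h1 (hlam _ _ (by linarith)))
    (fun e f h1 h2 => hc e f h1 (hlam _ _ h2)) L C.card C univ (fun _ => (TA.card : ℝ) / k) rfl
    (fun _ _ => ⟨div_nonneg hA0 (Nat.cast_nonneg _),
      div_le_one_of_le₀ (by linarith) (Nat.cast_nonneg _)⟩) (by
      intro e _
      have hk : (0 : ℝ) < k := by exact_mod_cast (φ e).pos
      have hLe : (k : ℝ) ≤ (L e).card := by exact_mod_cast hL e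
      rw [hCL]
      by_cases hA : col e = s
      · have hmem : φ e ∈ TA := mem_image_of_mem φ (mem_filter.2 ⟨mem_univ _, hA⟩)
        have h3 := out_le row col φ lam hr hc univ e TA hmem
          (fun f _ h => hlamA _ _ hmem h)
          (fun f h _ => mem_image_of_mem φ (mem_filter.2 ⟨mem_univ _, h.trans hA⟩))
        have h4 : (out row col (fun f => - lam (φ f)) (fun f => lam (φ f)) univ e : ℝ) + 1 ≤
            TA.card := by exact_mod_cast h3
        simp only [wt, hA, if_true, sum_const, nsmul_eq_mul]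
        have h5 : (k : ℝ) * ((TA.card : ℝ) / k) = TA.card := by field_simp
        have h6 := mul_le_mul_of_nonneg_right hLe (div_nonneg hA0 hk.le)
        linarith
      · by_cases hB : row e = s
        · have hmem : φ e ∈ TB := mem_image_of_mem φ (mem_filter.2 ⟨mem_univ _, hB⟩)
          have h3 := out_le row col φ lam hr hc univ e TB hmem
            (fun f h _ => mem_image_of_mem φ (mem_filter.2 ⟨mem_univ _, h.trans hB⟩))
            (fun f _ h => hlamB _ _ hmem h)
          have h4 : (out row col (fun f => - lam (φ f)) (fun f => lam (φ f)) univ e : ℝ) + 1 ≤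
              TB.card := by exact_mod_cast h3
          simp only [wt, hA, hB, if_true, if_false, sum_const, nsmul_eq_mul]
          have h5 : (k : ℝ) * (1 - (TA.card : ℝ) / k) = k - TA.card := by field_simp
          have h7 : (0 : ℝ) ≤ 1 - (TA.card : ℝ) / k :=
            sub_nonneg.2 (div_le_one_of_le₀ (by linarith) hk.le)
          have h6 := mul_le_mul_of_nonneg_right hLe h7
          linarith
        · have h3 := out_le row col φ lam hr hc univ e univ (mem_univ _)
            (fun _ _ _ => mem_univ _) (fun _ _ _ => mem_univ _)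
          rw [card_univ, Fintype.card_fin] at h3
          have h4 : (out row col (fun f => - lam (φ f)) (fun f => lam (φ f)) univ e : ℝ) + 1 ≤
              k := by exact_mod_cast h3
          simp only [wt, hA, hB, if_false, sum_const, nsmul_eq_mul, mul_one]
          linarith)
  exact ⟨ψ, fun e => (h1 e (mem_univ _)).2, fun e f => h2 e (mem_univ _) f (mem_univ _)⟩

end Pool.Agent.P.MP_fb43a4_co.NearBip
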